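import Pool.Agent.H62.EC.Final

/-!
The exposed condition is strictly stronger than the atomic condition for `k = 2`, `n = 4`.

The integrand is a local modification of the energy
`1 - (17/26) e_{5/13}(p_z) + (7/26) e_{12/13}(q_z)` on unit bivectors, where `(p, q)` are the
self-dual and anti-self-dual parts and `e_s` is the arc profile continued linearly beyond `s`.
-/

namespace Pool.Agent.Results.MP_0db605_an.ExposedNeAtomic

open H62.GI

/-- There is a `2`-integrand on `ℝ⁴` satisfying the atomic condition but not the exposed
condition. -/
theorem result : ∃ F : Submodule ℝ (EuclideanSpace ℝ (Fin 4)) → ℝ,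
    IsIntegrand 4 2 F ∧ AC 4 2 F ∧ ¬ EC 4 2 F :=
  H62.EC.exists_counterexample

end Pool.Agent.Results.MP_0db605_an.ExposedNeAtomic
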